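import Mathlib

set_option autoImplicit false

/-!
# D'Arcais polynomials: the first coefficients

`n a(n,k+1) = ∑_{j=1}^n σ(j) a(n-j,k)`; so `a(n,1) = σ(n)/n`, `a(n,2) = O(n)`, `a(n,3) ≥ (n-1)(n-2)/12`.
-/

open Finset Polynomial

namespace Pool.Agent.Q17.DA

/-- the sum of the reciprocals of the divisors -/
noncomputable def s (n : ℕ) : ℝ := ∑ d ∈ n.divisors, (1 : ℝ) / d

lemma sigma_eq {n : ℕ} : ((ArithmeticFunction.sigma 1 n : ℕ) : ℝ) = n * s n := by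
  rw [ArithmeticFunction.sigma_one_apply]
  unfold s
  rw [← Nat.sum_div_divisors n (fun d => d)]
  push_cast
  rw [Finset.mul_sum]
  apply Finset.sum_congr rfl
  intro d hd
  have hd' := Nat.mem_divisors.mp hd
  rw [Nat.cast_div hd'.1 (by
    have : 0 < d := Nat.pos_of_mem_divisors hd
    exact_mod_cast this.ne')]
  ring

lemma s_nonneg (n : ℕ) : 0 ≤ s n := Finset.sum_nonneg (fun _ _ => by positivity)

lemma one_le_s {n : ℕ} (hn : n ≠ 0) : 1 ≤ s n := by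
  have : (1 : ℝ) / ((1 : ℕ) : ℝ) ≤ s n := by
    unfold s
    exact Finset.single_le_sum (f := fun d : ℕ => (1 : ℝ) / d) (fun i _ => by positivity) (Nat.one_mem_divisors.mpr hn)
  simpa using this

/-- `d ^ (-3/2)` -/
noncomputable def u (d : ℕ) : ℝ := 1 / (d : ℝ) ^ (3 / 2 : ℝ)

lemma u_nonneg (d : ℕ) : 0 ≤ u d := by unfold u; positivity

lemma u_summable : Summable u := by
  unfold u
  exact Real.summable_one_div_nat_rpow.mpr (by norm_num)

noncomputable def Z : ℝ := ∑' d, u d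

lemma Z_nonneg : 0 ≤ Z := tsum_nonneg u_nonneg

lemma sum_u_le (S : Finset ℕ) : ∑ d ∈ S, u d ≤ Z := u_summable.sum_le_tsum S (fun i _ => u_nonneg i)

/-- `d * u d = d ^ (-1/2)` -/
lemma cs (n : ℕ) : s n ^ 2 ≤ (∑ d ∈ n.divisors, u d) * (∑ d ∈ n.divisors, d * u d) := by
  unfold s
  have h := Finset.sum_mul_sq_le_sq_mul_sq n.divisors (fun d : ℕ => Real.sqrt (u d)) (fun d : ℕ => Real.sqrt (d * u d))
  have h1 : ∀ d ∈ n.divisors, Real.sqrt (u d) * Real.sqrt (d * u d) = 1 / (d : ℝ) := by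
    intro d hd
    have hd0 : (0 : ℝ) < d := by exact_mod_cast Nat.pos_of_mem_divisors hd
    rw [← Real.sqrt_mul (u_nonneg d)]
    have : u d * (d * u d) = (1 / (d : ℝ)) ^ 2 := by
      unfold u
      have e : (d : ℝ) ^ (3 / 2 : ℝ) * (d : ℝ) ^ (3 / 2 : ℝ) = (d : ℝ) ^ 3 := by
        rw [← Real.rpow_add hd0]
        norm_num
      have hp : (0 : ℝ) < (d : ℝ) ^ (3 / 2 : ℝ) := Real.rpow_pos_of_pos hd0 _
      rw [show (1 / (d : ℝ) ^ (3 / 2 : ℝ)) * (d * (1 / (d : ℝ) ^ (3 / 2 : ℝ)))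
        = d / ((d : ℝ) ^ (3 / 2 : ℝ) * (d : ℝ) ^ (3 / 2 : ℝ)) from by field_simp, e]
      field_simp
    rw [this, Real.sqrt_sq (by positivity)]
  rw [Finset.sum_congr rfl h1] at h
  refine h.trans_eq ?_
  congr 1
  · exact Finset.sum_congr rfl (fun d _ => Real.sq_sqrt (u_nonneg d))
  · exact Finset.sum_congr rfl (fun d _ => Real.sq_sqrt (mul_nonneg (Nat.cast_nonneg d) (u_nonneg d)))

lemma sum_div_u (n : ℕ) : ∑ j ∈ Icc 1 n, ∑ d ∈ j.divisors, (d : ℝ) * u d ≤ n * Z := by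
  -- swap the sums
  have h1 : ∑ j ∈ Icc 1 n, ∑ d ∈ j.divisors, (d : ℝ) * u d
      = ∑ d ∈ Icc 1 n, ∑ j ∈ (Icc 1 n).filter (fun j => d ∣ j), (d : ℝ) * u d := by
    apply Finset.sum_comm'
    intro j d
    simp only [Finset.mem_Icc, Nat.mem_divisors, Finset.mem_filter]
    constructor
    · rintro ⟨⟨h1, h2⟩, h3, h4⟩
      exact ⟨⟨⟨h1, h2⟩, h3⟩, Nat.pos_of_dvd_of_pos h3 (by omega), (Nat.le_of_dvd (by omega) h3).trans h2⟩
    · rintro ⟨⟨⟨h1, h2⟩, h3⟩, h4, h5⟩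
      exact ⟨⟨h1, h2⟩, h3, by omega⟩
  rw [h1]
  have h2 : ∀ d ∈ Icc 1 n, ∑ j ∈ (Icc 1 n).filter (fun j => d ∣ j), (d : ℝ) * u d ≤ n * u d := by
    intro d hd
    have hd1 : 1 ≤ d := (Finset.mem_Icc.mp hd).1
    rw [Finset.sum_const, nsmul_eq_mul]
    have hc : ((Icc 1 n).filter (fun j => d ∣ j)).card = n / d := by
      have := Nat.Ioc_filter_dvd_card_eq_div n d
      rw [← this]
      congr 1
    rw [hc]
    have hle : ((n / d : ℕ) : ℝ) * d ≤ n := by exact_mod_cast Nat.div_mul_le_self n d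
    nlinarith [u_nonneg d, mul_le_mul_of_nonneg_right hle (u_nonneg d)]
  refine (Finset.sum_le_sum h2).trans ?_
  rw [← Finset.mul_sum]
  exact mul_le_mul_of_nonneg_left (sum_u_le _) (Nat.cast_nonneg n)

lemma sum_sq (n : ℕ) : ∑ j ∈ Icc 1 n, s j ^ 2 ≤ n * Z ^ 2 := by
  calc ∑ j ∈ Icc 1 n, s j ^ 2 ≤ ∑ j ∈ Icc 1 n, Z * ∑ d ∈ j.divisors, (d : ℝ) * u d := by
        apply Finset.sum_le_sum
        intro j _
        refine (cs j).trans ?_
        exact mul_le_mul_of_nonneg_right (sum_u_le _)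
          (Finset.sum_nonneg (fun d _ => mul_nonneg (Nat.cast_nonneg d) (u_nonneg d)))
    _ = Z * ∑ j ∈ Icc 1 n, ∑ d ∈ j.divisors, (d : ℝ) * u d := by rw [Finset.mul_sum]
    _ ≤ Z * (n * Z) := mul_le_mul_of_nonneg_left (sum_div_u n) Z_nonneg
    _ = n * Z ^ 2 := by ring

/-- `s` is unbounded -/
lemma s_unbounded (K : ℝ) : ∃ n : ℕ, n ≠ 0 ∧ K < s n := by
  obtain ⟨m, hm⟩ := ((Real.tendsto_sum_range_one_div_nat_succ_atTop).eventually (Filter.eventually_gt_atTop K)).exists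
  refine ⟨m.factorial, Nat.factorial_ne_zero m, hm.trans_le ?_⟩
  unfold s
  have e : ∀ m : ℕ, ∑ i ∈ range m, (1 : ℝ) / (i + 1) = ∑ d ∈ Icc 1 m, (1 : ℝ) / d := by
    intro m
    induction m with
    | zero => simp
    | succ m ih =>
      rw [Finset.sum_range_succ, ih, Finset.sum_Icc_succ_top (by omega)]
      push_cast
      rfl
  rw [e]
  apply Finset.sum_le_sum_of_subset_of_nonneg
  · intro d hd
    rw [Finset.mem_Icc] at hd
    exact Nat.mem_divisors.mpr ⟨Nat.dvd_factorial (by omega) hd.2, Nat.factorial_ne_zero m⟩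
  · intro i _ _
    positivity

end Pool.Agent.Q17.DA
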