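import Pool.Agent.Q17.DA.Basic

set_option autoImplicit false

open Finset Polynomial

namespace Pool.Agent.Q17.DA

/-- the recursion defining the D'Arcais polynomials -/
def Rec (P : ℕ → Polynomial ℚ) : Prop :=
  ∀ n : ℕ, 1 ≤ n →
        (n : Polynomial ℚ) * P n =
          Polynomial.X * ∑ k ∈ Finset.Icc 1 n,
            ((ArithmeticFunction.sigma 1 k : ℕ) : Polynomial ℚ) * P (n - k)

noncomputable def PP (n : ℕ) : Polynomial ℚ :=
  if n = 0 then 1 else
    C ((n : ℚ)⁻¹) * (X * ∑ k : Fin n, ((ArithmeticFunction.sigma 1 ((k : ℕ) + 1) : ℕ) : Polynomial ℚ) * PP (n - ((k : ℕ) + 1)))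
termination_by n
decreasing_by omega

lemma exists_P : ∃ P : ℕ → Polynomial ℚ, P 0 = 1 ∧ Rec P := by
  refine ⟨PP, ?_, ?_⟩
  · rw [PP]; simp
  · intro n hn
    rw [PP, if_neg (by omega), ← mul_assoc]
    have e1 : (n : Polynomial ℚ) * C ((n : ℚ)⁻¹) = 1 := by
      rw [← C_eq_natCast, ← C_mul, mul_inv_cancel₀ (by exact_mod_cast (by omega : n ≠ 0)), C_1]
    rw [e1, one_mul]
    congr 1
    rw [Finset.sum_fin_eq_sum_range]
    have e2 : ∀ n : ℕ, ∀ f : ℕ → Polynomial ℚ, ∑ i ∈ range n, f (i + 1) = ∑ d ∈ Icc 1 n, f d := by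
      intro m f
      induction m with
      | zero => simp
      | succ m ih =>
        rw [Finset.sum_range_succ, ih, Finset.sum_Icc_succ_top (by omega)]
    rw [← e2 n (fun k => ((ArithmeticFunction.sigma 1 k : ℕ) : Polynomial ℚ) * PP (n - k))]
    apply Finset.sum_congr rfl
    intro i hi
    rw [dif_pos (Finset.mem_range.mp hi)]

section
variable {P : ℕ → Polynomial ℚ} (h0 : P 0 = 1) (hP : Rec P)
include h0 hP

lemma rec_coeff {n : ℕ} (hn : 1 ≤ n) (k : ℕ) : (n : ℚ) * (P n).coeff (k + 1)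
    = ∑ j ∈ Icc 1 n, ((ArithmeticFunction.sigma 1 j : ℕ) : ℚ) * (P (n - j)).coeff k := by
  have h := congrArg (fun q : Polynomial ℚ => q.coeff (k + 1)) (hP n hn)
  rw [coeff_X_mul, finset_sum_coeff] at h
  rw [← C_eq_natCast, coeff_C_mul] at h
  rw [h]
  apply Finset.sum_congr rfl
  intro j _
  rw [← C_eq_natCast, coeff_C_mul]

lemma coeff_zero' {n : ℕ} (hn : 1 ≤ n) : (P n).coeff 0 = 0 := by
  have h := congrArg (fun q : Polynomial ℚ => q.coeff 0) (hP n hn)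
  rw [mul_coeff_zero, mul_coeff_zero, coeff_X_zero, zero_mul] at h
  rw [← C_eq_natCast, coeff_C_zero] at h
  rcases mul_eq_zero.mp h with h | h
  · exfalso
    have : n = 0 := by exact_mod_cast h
    omega
  · exact h

lemma zero_coeff (k : ℕ) : (P 0).coeff (k + 1) = 0 := by
  rw [h0, coeff_one, if_neg (by omega)]

lemma a1 (n : ℕ) : (((P n).coeff 1 : ℚ) : ℝ) = if n = 0 then 0 else s n := by
  split_ifs with h
  · subst h
    rw [zero_coeff h0 hP 0]; simp
  · have hn : 1 ≤ n := by omega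
    have h1 := rec_coeff h0 hP hn 0
    rw [Finset.sum_eq_single n] at h1
    · rw [Nat.sub_self, h0, coeff_one_zero, mul_one] at h1
      have h2 : ((n : ℝ)) * (((P n).coeff 1 : ℚ) : ℝ) = ((ArithmeticFunction.sigma 1 n : ℕ) : ℝ) := by
        exact_mod_cast h1
      rw [sigma_eq] at h2
      have hn0 : (n : ℝ) ≠ 0 := by exact_mod_cast h
      exact mul_left_cancel₀ hn0 h2
    · intro j hj hjn
      rw [Finset.mem_Icc] at hj
      rw [coeff_zero' h0 hP (by omega), mul_zero]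
    · intro h'
      exact absurd (Finset.mem_Icc.mpr ⟨hn, le_refl n⟩) h'

lemma rec_real {n : ℕ} (hn : 1 ≤ n) (k : ℕ) : (n : ℝ) * (((P n).coeff (k + 1) : ℚ) : ℝ)
    = ∑ j ∈ Icc 1 n, j * s j * (((P (n - j)).coeff k : ℚ) : ℝ) := by
  have h := rec_coeff h0 hP hn k
  have h' : ((n : ℝ)) * (((P n).coeff (k + 1) : ℚ) : ℝ)
      = ∑ j ∈ Icc 1 n, ((ArithmeticFunction.sigma 1 j : ℕ) : ℝ) * (((P (n - j)).coeff k : ℚ) : ℝ) := by
    exact_mod_cast congrArg (fun x : ℚ => (x : ℝ)) h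
  rw [h']
  exact Finset.sum_congr rfl (fun j _ => by rw [sigma_eq])

lemma a1_nonneg (n : ℕ) : 0 ≤ (((P n).coeff 1 : ℚ) : ℝ) := by
  rw [a1 h0 hP]
  split_ifs
  · exact le_refl 0
  · exact s_nonneg n

/-- the upper bound for the coefficient of `x²` -/
lemma a2_le (n : ℕ) : (((P n).coeff 2 : ℚ) : ℝ) ≤ n * Z ^ 2 := by
  rcases Nat.eq_zero_or_pos n with h | hn
  · subst h
    rw [zero_coeff h0 hP 1]; simp
  · have h1 := rec_real h0 hP hn 1
    have hn0 : (0 : ℝ) < n := by exact_mod_cast hn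
    have h2 : ∑ j ∈ Icc 1 n, (j : ℝ) * s j * (((P (n - j)).coeff 1 : ℚ) : ℝ)
        ≤ ∑ j ∈ Icc 1 n, (n : ℝ) * ((s j ^ 2 + (if n - j = 0 then 0 else s (n - j) ^ 2)) / 2) := by
      apply Finset.sum_le_sum
      intro j hj
      rw [Finset.mem_Icc] at hj
      rw [a1 h0 hP]
      have hjn : (j : ℝ) ≤ n := by exact_mod_cast hj.2
      split_ifs with h
      · simp only [mul_zero, add_zero]
        positivity
      · have hs := s_nonneg j
        have hs' := s_nonneg (n - j)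
        have h3 : s j * s (n - j) ≤ (s j ^ 2 + s (n - j) ^ 2) / 2 := by nlinarith [sq_nonneg (s j - s (n - j))]
        calc (j : ℝ) * s j * s (n - j) = j * (s j * s (n - j)) := by ring
          _ ≤ n * (s j * s (n - j)) := mul_le_mul_of_nonneg_right hjn (mul_nonneg hs hs')
          _ ≤ n * ((s j ^ 2 + s (n - j) ^ 2) / 2) := mul_le_mul_of_nonneg_left h3 hn0.le
    have h4 : ∑ j ∈ Icc 1 n, (if n - j = 0 then (0 : ℝ) else s (n - j) ^ 2) ≤ ∑ j ∈ Icc 1 n, s j ^ 2 := by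
      have e : ∑ j ∈ Icc 1 n, (if n - j = 0 then (0 : ℝ) else s (n - j) ^ 2)
          = ∑ j ∈ (Icc 1 n).filter (fun j => ¬ (n - j = 0)), s (n - j) ^ 2 := by
        rw [Finset.sum_filter]
        exact Finset.sum_congr rfl (fun j _ => by split_ifs <;> simp_all)
      rw [e]
      have e2 : ∑ j ∈ (Icc 1 n).filter (fun j => ¬ (n - j = 0)), s (n - j) ^ 2
          = ∑ j ∈ ((Icc 1 n).filter (fun j => ¬ (n - j = 0))).image (fun j => n - j), s j ^ 2 := by
        rw [Finset.sum_image]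
        intro a ha b hb hab
        simp only [Finset.coe_filter, Finset.mem_Icc, Set.mem_ofPred_eq] at ha hb hab
        omega
      rw [e2]
      apply Finset.sum_le_sum_of_subset_of_nonneg
      · intro j hj
        simp only [Finset.mem_image, Finset.mem_filter, Finset.mem_Icc] at hj ⊢
        omega
      · intro i _ _
        positivity
    have h5 := sum_sq n
    have h6 : ∑ j ∈ Icc 1 n, (n : ℝ) * ((s j ^ 2 + (if n - j = 0 then 0 else s (n - j) ^ 2)) / 2)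
        = n * ((∑ j ∈ Icc 1 n, s j ^ 2 + ∑ j ∈ Icc 1 n, (if n - j = 0 then (0 : ℝ) else s (n - j) ^ 2)) / 2) := by
      rw [← Finset.mul_sum, ← Finset.sum_div, Finset.sum_add_distrib]
    have h7 : (n : ℝ) * (((P n).coeff 2 : ℚ) : ℝ) ≤ n * (n * Z ^ 2) := by
      rw [h1]
      refine h2.trans (h6.trans_le ?_)
      apply mul_le_mul_of_nonneg_left _ hn0.le
      linarith
    exact le_of_mul_le_mul_left h7 hn0

/-- the lower bound for the coefficient of `x²` -/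
lemma le_a2 (n : ℕ) : ((n : ℝ) - 1) / 2 ≤ (((P n).coeff 2 : ℚ) : ℝ) := by
  rcases Nat.eq_zero_or_pos n with h | hn
  · subst h
    rw [zero_coeff h0 hP 1]; norm_num
  · have h1 := rec_real h0 hP hn 1
    have hn0 : (0 : ℝ) < n := by exact_mod_cast hn
    obtain ⟨m, rfl⟩ : ∃ m, n = m + 1 := ⟨n - 1, by omega⟩
    rw [Finset.sum_Icc_succ_top (by omega)] at h1
    have h2 : ∑ j ∈ Icc 1 m, (j : ℝ) ≤ ∑ j ∈ Icc 1 m, (j : ℝ) * s j * (((P (m + 1 - j)).coeff 1 : ℚ) : ℝ) := by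
      apply Finset.sum_le_sum
      intro j hj
      rw [Finset.mem_Icc] at hj
      rw [a1 h0 hP, if_neg (by omega)]
      have hs := one_le_s (n := j) (by omega)
      have hs' := one_le_s (n := m + 1 - j) (by omega)
      have hj0 : (0 : ℝ) ≤ j := Nat.cast_nonneg j
      have h3 : 1 ≤ s j * s (m + 1 - j) := by nlinarith
      calc (j : ℝ) = j * 1 := by ring
        _ ≤ j * (s j * s (m + 1 - j)) := mul_le_mul_of_nonneg_left h3 hj0
        _ = _ := by ring
    have h3 : ∀ m : ℕ, ∑ j ∈ Icc 1 m, (j : ℝ) = m * (m + 1) / 2 := by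
      intro m
      induction m with
      | zero => simp
      | succ m ih => rw [Finset.sum_Icc_succ_top (by omega), ih]; push_cast; ring
    rw [h3] at h2
    have h4 : (0 : ℝ) ≤ ((m + 1 : ℕ) : ℝ) * s (m + 1) * (((P (m + 1 - (m + 1))).coeff 1 : ℚ) : ℝ) :=
      mul_nonneg (mul_nonneg (Nat.cast_nonneg _) (s_nonneg _)) (a1_nonneg h0 hP _)
    have h5 : ((m + 1 : ℕ) : ℝ) * ((((m + 1 : ℕ) : ℝ) - 1) / 2) ≤ ((m + 1 : ℕ) : ℝ) * (((P (m + 1)).coeff 2 : ℚ) : ℝ) := by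
      rw [h1]
      push_cast at h4 ⊢
      linarith
    exact le_of_mul_le_mul_left h5 hn0

/-- the lower bound for the coefficient of `x³` -/
lemma le_a3 {n : ℕ} (hn : 1 ≤ n) : ((n : ℝ) - 1) * (n - 2) / 12 ≤ (((P n).coeff 3 : ℚ) : ℝ) := by
  have h1 := rec_real h0 hP hn 2
  have hn0 : (0 : ℝ) < n := by exact_mod_cast hn
  obtain ⟨m, rfl⟩ : ∃ m, n = m + 1 := ⟨n - 1, by omega⟩
  rw [Finset.sum_Icc_succ_top (by omega)] at h1
  have h2 : ∑ j ∈ Icc 1 m, (j : ℝ) * ((m - j) / 2) ≤ ∑ j ∈ Icc 1 m, (j : ℝ) * s j * (((P (m + 1 - j)).coeff 2 : ℚ) : ℝ) := by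
    apply Finset.sum_le_sum
    intro j hj
    rw [Finset.mem_Icc] at hj
    have hs := one_le_s (n := j) (by omega)
    have h3 := le_a2 h0 hP (m + 1 - j)
    rw [Nat.cast_sub (by omega)] at h3
    push_cast at h3
    have hj0 : (0 : ℝ) ≤ j := Nat.cast_nonneg j
    have hjm : (j : ℝ) ≤ m := by exact_mod_cast hj.2
    have h4 : (0 : ℝ) ≤ ((m : ℝ) - j) / 2 := by linarith
    have h5 : ((m : ℝ) - j) / 2 ≤ (((P (m + 1 - j)).coeff 2 : ℚ) : ℝ) := by linarith
    calc (j : ℝ) * ((m - j) / 2) ≤ (j * s j) * ((m - j) / 2) := by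
          apply mul_le_mul_of_nonneg_right _ h4
          nlinarith
      _ ≤ (j : ℝ) * s j * (((P (m + 1 - j)).coeff 2 : ℚ) : ℝ) := by
          apply mul_le_mul_of_nonneg_left h5
          exact mul_nonneg hj0 (by linarith)
  have h3 : ∀ (m : ℕ) (c : ℝ), ∑ j ∈ Icc 1 m, (j : ℝ) * ((c - j) / 2) = c * m * (m + 1) / 4 - m * (m + 1) * (2 * m + 1) / 12 := by
    intro m c
    induction m with
    | zero => simp
    | succ m ih => rw [Finset.sum_Icc_succ_top (by omega), ih]; push_cast; ring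
  rw [h3] at h2
  have h4 : (((P (m + 1 - (m + 1))).coeff 2 : ℚ) : ℝ) = 0 := by
    rw [Nat.sub_self, zero_coeff h0 hP 1]; simp
  rw [h4, mul_zero, add_zero] at h1
  have h5 : ((m + 1 : ℕ) : ℝ) * ((((m + 1 : ℕ) : ℝ) - 1) * (((m + 1 : ℕ) : ℝ) - 2) / 12) ≤ ((m + 1 : ℕ) : ℝ) * (((P (m + 1)).coeff 3 : ℚ) : ℝ) := by
    rw [h1]
    refine le_trans (le_of_eq ?_) h2
    push_cast
    ring
  exact le_of_mul_le_mul_left h5 hn0

/-- log-concavity fails at the coefficient of `x²` -/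
lemma fails : ∃ n : ℕ, (P n).coeff 2 ^ 2 < (P n).coeff (2 - 1) * (P n).coeff (2 + 1) := by
  obtain ⟨n, hn, hK⟩ := s_unbounded (max (36 * Z ^ 4) 36)
  have hK1 : 36 * Z ^ 4 < s n := (le_max_left _ _).trans_lt hK
  have hK2 : 36 < s n := (le_max_right _ _).trans_lt hK
  refine ⟨n, ?_⟩
  show (P n).coeff 2 ^ 2 < (P n).coeff 1 * (P n).coeff 3
  -- n is large
  have hn4 : 4 ≤ n := by
    by_contra hcon
    have h1 : s n ≤ n := by
      unfold s
      calc ∑ d ∈ n.divisors, (1 : ℝ) / d ≤ ∑ d ∈ n.divisors, (1 : ℝ) := by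
            apply Finset.sum_le_sum
            intro d hd
            have : (1 : ℝ) ≤ d := by exact_mod_cast Nat.pos_of_mem_divisors hd
            rw [div_le_one (by linarith)]
            exact this
        _ = (n.divisors.card : ℝ) := by simp
        _ ≤ n := by exact_mod_cast Nat.card_divisors_le_self n
    have h2 : (n : ℝ) ≤ 4 := by exact_mod_cast (by omega : n ≤ 4)
    linarith
  have hnr : (4 : ℝ) ≤ n := by exact_mod_cast hn4
  have e1 : (((P n).coeff 1 : ℚ) : ℝ) = s n := by rw [a1 h0 hP, if_neg hn]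
  have e2 := a2_le h0 hP n
  have e2' := le_a2 h0 hP n
  have e3 := le_a3 h0 hP (n := n) (by omega)
  have e4 : (((P n).coeff 2 : ℚ) : ℝ) ^ 2 < (((P n).coeff 1 : ℚ) : ℝ) * (((P n).coeff 3 : ℚ) : ℝ) := by
    rw [e1]
    have h1 : (((P n).coeff 2 : ℚ) : ℝ) ^ 2 ≤ (n * Z ^ 2) ^ 2 := by
      apply pow_le_pow_left₀ _ e2
      linarith
    have h2 : (n : ℝ) ^ 2 / 36 ≤ ((n : ℝ) - 1) * (n - 2) / 12 := by nlinarith
    have h3 : (n : ℝ) ^ 2 / 36 ≤ (((P n).coeff 3 : ℚ) : ℝ) := h2.trans e3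
    have hn2 : (0 : ℝ) < (n : ℝ) ^ 2 := by positivity
    calc (((P n).coeff 2 : ℚ) : ℝ) ^ 2 ≤ (n * Z ^ 2) ^ 2 := h1
      _ = (36 * Z ^ 4) * ((n : ℝ) ^ 2 / 36) := by ring
      _ < s n * ((n : ℝ) ^ 2 / 36) := mul_lt_mul_of_pos_right hK1 (by positivity)
      _ ≤ s n * (((P n).coeff 3 : ℚ) : ℝ) := mul_le_mul_of_nonneg_left h3 (s_nonneg n)
  exact_mod_cast e4

end

end Pool.Agent.Q17.DA
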